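import Pool.Agent.K9h78.LP.SF
import Pool.Agent.K9h78.LP.EX
import Pool.Agent.R260.SC.GR
import Pool.Agent.R260.SC.SZ
import Pool.Agent.R260.SC.NUSF
import Pool.Agent.R260.SC.TR

set_option autoImplicit false
open MeasureTheory Matrix

namespace Pool.Agent.K9h79.F4

open Pool.Agent.K9h78.LP (trPow Rep)

theorem fin4 (n : ℕ) (A B : Matrix (Fin n) (Fin n) ℂ) :
    Rep 4 (fun a b => trPow 4 (a • A + b • B)) := by
  obtain ⟨m, v, hv, h⟩ := Pool.Agent.R260.SC.gr n A B
  obtain ⟨m', u, hu, hsum⟩ := Pool.Agent.R260.SC.sz m v hv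
  choose f g hfg using fun i => Pool.Agent.R260.SC.NUSF.nu (u i) (hu i)
  refine ⟨m', f, g, fun α β => ?_⟩
  have h1 := Pool.Agent.R260.SC.tr n 2 (α • A + β • B)
  rw [h α β] at h1
  have h2 := Complex.ofReal_injective h1
  have h3 : trPow 4 (α • A + β • B) =
      Pool.Agent.R260.SC.sch (2 * ((2 : ℕ) : ℝ)) (α • A + β • B) := by
    unfold trPow Pool.Agent.R260.SC.sch
    norm_num
  show trPow 4 (α • A + β • B) = _
  rw [h3, h2, ← hsum]
  refine Finset.sum_congr rfl fun i _ => ?_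
  rw [hfg i α β]
  norm_cast

end Pool.Agent.K9h79.F4
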